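import Pool.Agent.Helper30.F9.Expl5

/-! An entire function of finite order for which the maximal valence exceeds the spherical area by a
fixed factor `1 + 10^(-8)` for all large radii. -/

set_option autoImplicit false
open scoped ENNReal

namespace Pool.Agent.Results.MP_f96253_an.FiniteOrder

/-- `n(r, a)`: the number of solutions of `f z = a` in the disc `|z| < r`, with multiplicity. -/
noncomputable def valence (f : ℂ → ℂ) (r : ℝ) (a : ℂ) : ℕ :=
  ∑ᶠ z ∈ Metric.ball (0 : ℂ) r, analyticOrderNatAt (fun w => f w - a) z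

/-- `A(r)`: the mean of `n(r, a)` with respect to the normalised spherical area,
`(1/π) ∫ n(r, a) / (1 + |a|²)² dx dy`. -/
noncomputable def area (f : ℂ → ℂ) (r : ℝ) : ℝ≥0∞ :=
  ENNReal.ofReal (1 / Real.pi) *
    ∫⁻ a : ℂ, (valence f r a : ℝ≥0∞) / ENNReal.ofReal ((1 + ‖a‖ ^ 2) ^ 2)

/-- There is a nonconstant entire function `f` of order at most `log 2 / log (32/25) < 2.81` such that for
all large `r` some finite value `a` is taken more than `(1 + 10^(-8)) A(r)` times in `|z| < r`. -/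
theorem result : ∃ f : ℂ → ℂ, Differentiable ℂ f ∧ (¬ ∃ c : ℂ, ∀ z : ℂ, f z = c) ∧
    (∃ C R : ℝ, ∀ z : ℂ, R ≤ ‖z‖ →
      ‖f z‖ ≤ Real.exp (C * ‖z‖ ^ (Real.log 2 / Real.log (32 / 25)))) ∧
    ∃ R : ℝ, ∀ r : ℝ, R ≤ r → ∃ a : ℂ,
      ENNReal.ofReal (1 + 1 / 10 ^ 8) * area f r < (valence f r a : ℝ≥0∞) := by
  obtain ⟨f, hfd, R0, hR0⟩ := Pool.Agent.Helper30.F9.exists_f
  have hf : Pool.Agent.Helper30.F9.Good9 f R0 := ⟨hfd, hR0⟩
  refine ⟨f, hfd, Pool.Agent.Helper30.F9.nonconst hf, Pool.Agent.Helper30.F9.f_growth hf, ?_⟩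
  obtain ⟨R, hR⟩ := Pool.Agent.Helper30.F9.open_expl hf
  refine ⟨R, fun r hr => ?_⟩
  obtain ⟨a, ha⟩ := hR r hr
  refine ⟨a, ?_⟩
  unfold area
  rw [← mul_assoc, ← ENNReal.ofReal_mul (by norm_num), mul_one_div]
  exact ha

end Pool.Agent.Results.MP_f96253_an.FiniteOrder
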